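import Mathlib
import Pool.Agent.H600.BF.Prod

/-!
# The equivariant Beilinson conjecture for abelian extensions of exponent `D`: only unramified
extensions of exponent `D` matter
-/

set_option autoImplicit false
set_option linter.unusedSectionVars false

namespace Pool.Agent.Results.MP_a93ca1_nt.BoundedOrders

open NumberField Pool.Agent.Q20 Pool.Agent.Q20.RS.BK Pool.Agent.H600 Pool.Agent.H600.BF
open Pool.Agent.Q20.RS hiding Sub Factor Induction Products Algebraicity WellDefined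
open Pool.Agent.Q20.RS.BK hiding Products Reduction Algebraicity

/-- the field `ℚ(ζ_D)` -/
noncomputable def cyclo (D : ℕ) : IntermediateField ℚ ℂ :=
  IntermediateField.adjoin ℚ {Complex.exp (2 * Real.pi * Complex.I / D)}

/-- (1) **The induction theorem.** -/
def Induction (K : Type) [Field K] [NumberField K] : Prop :=
  ∀ s : ℂˣ, s = 1 ∨ s = -1 →
    (∃ ε : Gal(AlgebraicClosure K/K) →* ℂˣ, Sign s ε) ∧
    ∀ ε : Gal(AlgebraicClosure K/K) →* ℂˣ, Sign s ε →
      ∀ (M : ℕ) (S : Finset ℕ) (L : RS.Sub K), 0 < M → FinExt L →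
        ∀ D : ℕ, D ≠ 0 → ∀ F₀ : IntermediateField ℚ ℂ, F₀ ≤ cyclo D →
          ∀ f : Fn (base K), Virt f → (∀ g, f g ∈ F₀) → Multiple f (IndBasic s ε M S L D F₀)

/-- (2) **Product formulas** for the Artin L-functions and the numbers `A_k(χ)` -/
def Products (K : Type) [Field K] [NumberField K] (k : ℕ) (H : Motivic K k) : Prop :=
  ∀ s : ℂˣ, s = 1 ∨ s = -1 → ∀ ε : Gal(AlgebraicClosure K/K) →* ℂˣ, Sign s ε →
    ∀ (M : ℕ) (S : Finset ℕ) (L : RS.Sub K), 0 < M → FinExt L →
      ∀ D : ℕ, D ≠ 0 → ∀ F₀ : IntermediateField ℚ ℂ, F₀ ≤ cyclo D →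
        ∀ F : RS.Sub K, FinExt F → ∀ χ : Fn F, RS.Char χ → (∀ g, χ g ∈ F₀) →
          ∃ (m : ℕ) (l : List (Factor K)), 0 < m ∧ (∀ t ∈ l, Basic s ε M S L D F₀ t.χ) ∧
            Ev fun ℓ : BLv K k H =>
              (∀ z : ℂ, 1 < z.re → ℓ.L χ z ^ m = (l.map fun t => ℓ.L t.χ z ^ t.e).prod) ∧
              ℓ.A χ ^ m = (l.map fun t => ℓ.A t.χ ^ t.e).prod

/-- (3) **Beilinson's equality** up to powers for the characters with values in `F₀` -/
def Reduction (K : Type) [Field K] [NumberField K] (k : ℕ) (H : Motivic K k) : Prop :=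
  ∀ ε : Gal(AlgebraicClosure K/K) →* ℂˣ, Sign ((-1) ^ k) ε →
    ∀ (M : ℕ) (S : Finset ℕ) (L : RS.Sub K), 0 < M → FinExt L →
      ∀ D : ℕ, D ≠ 0 → ∀ F₀ : IntermediateField ℚ ℂ, F₀ ≤ cyclo D →
        (∀ F : RS.Sub K, FinExt F → ∀ χ : Fn F, Basic ((-1) ^ k) ε M S L D F₀ χ →
          ∃ m : ℕ, 0 < m ∧ Equality H m χ) →
        ∀ F : RS.Sub K, FinExt F → ∀ χ : Fn F, RS.Char χ → (∀ g, χ g ∈ F₀) →
          ∃ m : ℕ, 0 < m ∧ Equality H m χ

/-- (4) **Abelian extensions of exponent `D`.** -/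
def Exponent (K : Type) [Field K] [NumberField K] (k : ℕ) (H : Motivic K k) : Prop :=
  ∀ ε : Gal(AlgebraicClosure K/K) →* ℂˣ, Sign ((-1) ^ k) ε →
    ∀ (M : ℕ) (S : Finset ℕ) (L : RS.Sub K), 0 < M → FinExt L → ∀ D : ℕ, D ≠ 0 →
      (∀ F : RS.Sub K, FinExt F → ∀ ψ : Lin F,
        ψ.hom = 1 ∨ (ClassGroup M S L ψ ∧ ψ.hom ^ D = 1) ∨ OnePrime ((-1) ^ k) ε S ψ →
          ∃ m : ℕ, 0 < m ∧ Equality H m ψ.fn) →
      ∀ F : RS.Sub K, FinExt F → ∀ L' : RS.Sub K, FinExt L' → ∃ m : ℕ, 0 < m ∧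
        ∀ ψ : Lin F, ψ.hom ^ D = 1 →
          (∀ g : GalF F, (g : Gal(AlgebraicClosure K/K)) ∈ L'.fixingSubgroup → ψ.hom g = 1) →
            Equality H m ψ.fn

/-- (5) **Algebraicity** of the numbers `A_k(χ)` -/
def Algebraicity (K : Type) [Field K] [NumberField K] (k : ℕ) (H : Motivic K k) : Prop :=
  ∀ ε : Gal(AlgebraicClosure K/K) →* ℂˣ, Sign ((-1) ^ k) ε →
    ∀ (M : ℕ) (S : Finset ℕ) (L : RS.Sub K), 0 < M → FinExt L →
      ∀ D : ℕ, D ≠ 0 → ∀ F₀ : IntermediateField ℚ ℂ, F₀ ≤ cyclo D →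
        (∀ F : RS.Sub K, FinExt F → ∀ χ : Fn F, Basic ((-1) ^ k) ε M S L D F₀ χ →
          Ev fun ℓ : BLv K k H => IsAlgebraic ℚ (ℓ.A χ)) →
        ∀ F : RS.Sub K, FinExt F → ∀ χ : Fn F, RS.Char χ → (∀ g, χ g ∈ F₀) →
          Ev fun ℓ : BLv K k H => IsAlgebraic ℚ (ℓ.A χ)

section
variable {K : Type} [Field K] [NumberField K] [IsTotallyReal K] {k : ℕ}

theorem induction : Induction K := fun s hs =>
  ⟨(RS.induction s hs).1, fun _ hε _ _ _ hM hL _ hD _ hF₀ _ hf hv =>
    ind_basic hs hε hM hL hD hF₀ hf hv⟩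

theorem mult {s : ℂˣ} (hs : s = 1 ∨ s = -1) {ε : Gal(AlgebraicClosure K/K) →* ℂˣ}
    (hε : Sign s ε) {M : ℕ} {S : Finset ℕ} {L : RS.Sub K} (hM : 0 < M) (hL : FinExt L) {D : ℕ}
    (hD : D ≠ 0) {F₀ : IntermediateField ℚ ℂ} (hF₀ : F₀ ≤ cyclo D) {F : RS.Sub K} (hF : FinExt F)
    {χ : Fn F} (hχ : RS.Char χ) (hv : ∀ g, χ g ∈ F₀) :
    Multiple (ind (base K) F χ) (IndBasic s ε M S L D F₀) :=
  ind_basic hs hε hM hL hD hF₀ (RS.virt_ind hF hχ) (ind_val hF hv)

theorem products (H : Motivic K k) : Products K k H := by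
  intro s hs ε hε M S L hM hL D hD F₀ hF₀ F hF χ hχ hv
  obtain ⟨m, hm, h1⟩ := mult hs hε hM hL hD hF₀ hF hχ hv
  obtain ⟨l, hl, e⟩ := exists_facs (P := fun F χ => Basic s ε M S L D F₀ χ) h1
  obtain ⟨N₀, h2, h3⟩ := prod_of hF hχ m (fun t ht => (hl t ht).char hD t.fin) e
  exact ⟨m, l, hm, hl, N₀, h2, fun ℓ hℓ => h3 ℓ.g hℓ⟩

theorem reduction (H : Motivic K k) : Reduction K k H := by
  intro ε hε M S L hM hL D hD F₀ hF₀ h1 F hF χ hχ hv
  obtain ⟨m, hm, h⟩ := mult (RS.BK.sign_pow k) hε hM hL hD hF₀ hF hχ hv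
  refine GD.pow_of_mem (BLv.g (K := K) (k := k) (H := H)) hF hχ hm h ?_
  rintro f ⟨F', ψ, hF', hψ, rfl⟩
  obtain ⟨n, hn, h2⟩ := h1 F' hF' ψ hψ
  exact ⟨n, hn, GD.exact_ev BLv.g hF' (hψ.char hD hF') h2⟩

/-- over `ℚ(ζ_D)` the trace is the character -/
theorem tr_cyclo {F : RS.Sub K} {D : ℕ} (hD : D ≠ 0) {ψ : Lin F} (h : ψ.hom ^ D = 1) :
    SF.tr (cyclo D) D ψ.hom = ψ.fn := by
  have hne : NeZero D := ⟨hD⟩
  have h1 : SF.conj (cyclo D) D = {1} := by
    ext u
    rw [Set.mem_singleton_iff]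
    constructor
    · rintro ⟨σ, h2, h3⟩
      rw [h2 (SF.zeta D) (IntermediateField.mem_adjoin_simple_self ℚ _)] at h3
      have h4 : SF.zeta D ^ ((u : ZMod D).val + (D - 1)) = 1 := by
        rw [pow_add, ← h3, ← pow_succ', Nat.sub_add_cancel (Nat.pos_of_ne_zero hD),
          (SF.zeta_prim hD).pow_eq_one]
      have h5 : (((u : ZMod D).val + (D - 1) : ℕ) : ZMod D) = 0 :=
        (ZMod.natCast_eq_zero_iff _ _).2 ((SF.zeta_prim hD).pow_eq_one_iff_dvd _ |>.1 h4)
      have h6 : ((D - 1 : ℕ) : ZMod D) = -1 := by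
        rw [Nat.cast_sub (Nat.pos_of_ne_zero hD), ZMod.natCast_self, Nat.cast_one, zero_sub]
      rw [Nat.cast_add, h6, ZMod.natCast_val, ZMod.cast_id, add_neg_eq_zero] at h5
      exact Units.ext h5
    · rintro rfl
      refine ⟨RingEquiv.refl ℂ, fun x _ => rfl, ?_⟩
      change SF.zeta D = SF.zeta D ^ ((1 : (ZMod D)ˣ) : ZMod D).val
      rw [Units.val_one]
      have h6 : (1 : ZMod D).val ≡ 1 [MOD D] := by
        rw [← ZMod.natCast_eq_natCast_iff, ZMod.natCast_val, ZMod.cast_id, Nat.cast_one]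
      rw [SF.zeta_congr hD h6, pow_one]
  funext g
  unfold SF.tr
  rw [h1, finsum_mem_singleton, Units.val_one]
  have h2 : ((ψ.hom g : ℂˣ) : ℂ) ^ D = 1 := by
    have h3 := congrArg (fun x : ℂˣ => (x : ℂ)) (DFunLike.congr_fun h g)
    exact h3
  have h6 : (1 : ZMod D).val ≡ 1 [MOD D] := by
    rw [← ZMod.natCast_eq_natCast_iff, ZMod.natCast_val, ZMod.cast_id, Nat.cast_one]
  rw [pow_eq_pow_mod _ h2, h6, ← pow_eq_pow_mod _ h2, pow_one]
  rfl

theorem exponent (H : Motivic K k) : Exponent K k H := by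
  intro ε hε M S L hM hL D hD h1 F hF L' hL'
  have hfin := finite_lin F L' hL'
  have hft : Fintype {ψ : Lin F // ∀ g : GalF F, (g : Gal(AlgebraicClosure K/K)) ∈
    L'.fixingSubgroup → ψ.hom g = 1} := Fintype.ofFinite _
  have h2 : ∀ ψ : {ψ : Lin F // ∀ g : GalF F, (g : Gal(AlgebraicClosure K/K)) ∈
      L'.fixingSubgroup → ψ.hom g = 1}, ∃ m : ℕ, 0 < m ∧
        (ψ.1.hom ^ D = 1 → Equality H m ψ.1.fn) := by
    intro ψ
    by_cases hψ : ψ.1.hom ^ D = 1
    · have hb : ∀ F : RS.Sub K, FinExt F → ∀ χ : Fn F,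
          Basic ((-1) ^ k) ε M S L D (cyclo D) χ → ∃ m : ℕ, 0 < m ∧ Equality H m χ := by
        intro F' hF' χ hχ
        cases hχ with
        | trivial => exact h1 F' hF' (one F') (Or.inl rfl)
        | onePrime ψ' h => exact h1 F' hF' ψ' (Or.inr (Or.inr h))
        | classGroup ψ' h h' =>
          rw [tr_cyclo hD h']
          exact h1 F' hF' ψ' (Or.inr (Or.inl ⟨h, h'⟩))
      have hv : ∀ g, ψ.1.fn g ∈ cyclo D := by
        intro g
        have h3 : ((ψ.1.hom g : ℂˣ) : ℂ) ^ D = 1 := by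
          have h4 := congrArg (fun x : ℂˣ => (x : ℂ)) (DFunLike.congr_fun hψ g)
          exact h4
        have hne : NeZero D := ⟨hD⟩
        obtain ⟨i, -, hi⟩ := (SF.zeta_prim hD).eq_pow_of_pow_eq_one h3
        change ((ψ.1.hom g : ℂˣ) : ℂ) ∈ cyclo D
        rw [← hi]
        exact pow_mem (IntermediateField.mem_adjoin_simple_self ℚ _) i
      obtain ⟨m, hm, h3⟩ := reduction H ε hε M S L hM hL D hD (cyclo D) le_rfl hb F hF ψ.1.fn
        (Pool.Agent.Q20.TR.lin_isCharacter F ψ.1.hom ψ.1.smooth) hv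
      exact ⟨m, hm, fun _ => h3⟩
    · exact ⟨1, one_pos, fun h => absurd h hψ⟩
  choose m hm h3 using h2
  refine ⟨∏ ψ, m ψ, Finset.prod_pos fun ψ _ => hm ψ, fun ψ hψD hψ => ?_⟩
  obtain ⟨N₀, h4, h5⟩ := h3 ⟨ψ, hψ⟩ hψD
  refine ⟨N₀, h4, fun ℓ hℓ σ => ?_⟩
  obtain ⟨c, hc⟩ : m ⟨ψ, hψ⟩ ∣ ∏ ψ, m ψ := Finset.dvd_prod_of_mem m (Finset.mem_univ _)
  rw [hc, pow_mul, pow_mul]
  exact congrArg (· ^ c) (h5 ℓ hℓ σ)

theorem algebraicity (H : Motivic K k) : Algebraicity K k H := by
  intro ε hε M S L hM hL D hD F₀ hF₀ h1 F hF χ hχ hv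
  obtain ⟨m, hm, h⟩ := mult (RS.BK.sign_pow k) hε hM hL hD hF₀ hF hχ hv
  refine GD.alg_of_mem (BLv.g (K := K) (k := k) (H := H)) hF hχ hm h ?_
  rintro f ⟨F', ψ, hF', hψ, rfl⟩
  exact (GD.alg_ev BLv.g hF' (hψ.char hD hF')).1 (h1 F' hF' ψ hψ)

end

/-- **Theorem.** Let `K` be a totally real number field (e.g. `ℚ`; every number field is a finite
extension of `ℚ`), `k` a natural number, and let `H_N ⊆ ℂ ⊗ V_N⁺` be given for the number fields `N`
containing `K` (the regulators of the groups `K_{2k-1}(N) ⊗ ℚ`). A level is a finite normal extension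
`N` of `K` with a finite set `T` of primes (stable, containing primes above the ramified primes) and
an automorphism `θ` of the representation `ℂ ⊗ V_N⁺` of `Gal(N/K)` which maps `B_N⁺` onto `H_N`. For a
character `χ` of `Gal(N/F)`, `A_k(χ)` is the quotient of the determinant of `θ` on the `χ`-part and of
the leading coefficient of `L_S(s, χ)` at `s = 1-k`; Beilinson's conjecture for abelian `N/F` says
`A_k(χ)^σ = A_k(χ^σ)` for all linear characters `χ` and all automorphisms `σ` of `ℂ`.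
(0) The numbers `A_k(χ)` and L-functions `L_S(z, χ)` of characters `χ` of `Gal(K̄/F)` at all
sufficiently large levels are those of the representations of `Gal(N/F)`, and `A_k(χ) ≠ 0`.

Let `D ≥ 1` and let `F₀` be a subfield of `ℚ(ζ_D)`. Let `s = 1` or `s = -1`, `ε` a quadratic or
trivial character of `Gal(K̄/K)` with value `s` at the complex conjugations (it exists), `M > 0`, `S` a
finite set of primes and `L` a finite extension of `K`. The basic characters of `Gal(K̄/F)` are: the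
trivial character; the linear characters `ψ` over totally real fields `F` with `ψ(c) = s` for all
complex conjugations such that for one prime `p` the character `ε ψ` is unramified outside `p` and
trivial on the decomposition groups above the primes of `S` other than `p`; the traces over `F₀` (the
sums of the conjugates over `F₀`) of the class group characters `ψ` **with `ψ^D = 1`**, where `ψ` is
everywhere unramified, `F` is totally complex of degree divisible by `M`, the places above `S` split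
completely in the extension defined by `ψ`, and the completions of `F` above `S` contain those of `L`.
(1) For every virtual character `f` of `Gal(K̄/K)` with values in `F₀` a positive multiple of `f` is an
integral combination of characters induced from basic characters.
(2) For every character `χ` of `Gal(K̄/F)` with values in `F₀`, `F/K` finite, there are `m > 0`, basic
characters `χ_i` and integers `e_i` with `L_S(z, χ)^m = ∏ L_S(z, χ_i)^{e_i}` for `Re z > 1` and
`A_k(χ)^m = ∏ A_k(χ_i)^{e_i}` at all sufficiently large levels.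
(3) Let `s = (-1)^k`. If for every basic character `χ` there is `m > 0` with
`(A_k(χ)^m)^σ = A_k(χ^σ)^m` for all `σ`, then there is such an `m` for every character `χ` with values
in `F₀`.
(4) **Abelian extensions of exponent `D`.** If for every linear character `ψ` which is trivial, or of
parity `(-1)^k` over a totally real field as above (known with `m = 1`: Borel; Siegel and Klingen), or
a class group character as above with `ψ^D = 1`, there is `m > 0` with `(A_k(ψ)^m)^σ = A_k(ψ^σ)^m` for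
all `σ`, then for every finite Galois extension `L'/F`, `F` finite over `K`, there is `m > 0` with
`(A_k(ψ)^m)^σ = A_k(ψ^σ)^m` for all linear characters `ψ` of `Gal(L'/F)` with `ψ^D = 1` and all `σ`, at
all sufficiently large levels.
(5) If `A_k(χ)` is algebraic for the basic characters (at all sufficiently large levels), then it is
algebraic for every character `χ` with values in `F₀`. -/
theorem result (K : Type) [Field K] [NumberField K] [IsTotallyReal K] (k : ℕ) (H : Motivic K k) :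
    RS.BK.WellDefined K k H ∧ Induction K ∧ Products K k H ∧ Reduction K k H ∧ Exponent K k H ∧
      Algebraicity K k H :=
  ⟨well_defined H, induction, products H, reduction H, exponent H, algebraicity H⟩

end Pool.Agent.Results.MP_a93ca1_nt.BoundedOrders
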