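import Pool.Agent.H367.OS.OArt
import Mathlib

/-!
# The equivariant Beilinson conjecture for abelian extensions and one double sequence of Artin motives

A relation `r` of size `m` is one of the equations `x_i x_j = x_l`, `x_i + x_j = x_l`, `x_i = 1` with
`i, j, l < m`; the relations are numbered, the number of `r` is `ν(r)` (`relNum`). Let `G_m` be the
following polynomial with integral coefficients (`univG ℤ m`). There are variables `x_i` and `z_ij` for
`i, j < m`, a variable `c_r` for every relation `r`, and variables `y_{r,l}` for all relations `r` and
`l < (m + 1) 2 ^ ν(r)`. The equations (`eqnG`) are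

  `z_ij - x_i x_j`,  `c_r ^ 2 - c_r`,  `c_r ρ_r`,  `(1 - c_r) y_{r,l}`,

where `ρ_r` is the linear polynomial `z_ij - x_l`, `x_i + x_j - x_l` or `x_i - 1` of the relation.
`G_m` is the sum of the equations multiplied by further variables `t_e`, one for each equation. It has
degree three. Let `C_m` be the affine cubic hypersurface `G_m = 1` (`cubG R m` over the ring `R`); it is
smooth over the integers.

Let `M` be the category of motives over `ℚ` in the sense of André, a semisimple abelian category with
Tate twists `N ↦ N(a)`. For a separated scheme `X` of finite type over `ℚ` let `D.G w j X = Gr^W_w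
H^j_c(X)` be the part of weight `w` of the cohomology with compact supports, a motive over `ℚ`; for
smooth projective `Y` it is `h^j(Y)` if `j = w`, and zero otherwise. The motives `h^0(Y)` and their
direct factors are the Artin motives over `ℚ` (representations of `Gal(ℚ̄/ℚ)` over `ℚ` with finite
image).

Let `E_m` be the number of the equations, and for `N ∈ ℕ` let `e = (m + 1) N + E_m - 1`
(`esh m N`). Let `V_{m,N}` be the
motive `Gr^W_{2e} H^{2e+1}_c(C_m)(e)` (`single0 D m N`).

The type `I` consists of the irreducible complex characters of the finite quotients of `Gal(ℚ̄/ℚ)`,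
and `occ χ N` says that `χ` occurs in `N ⊗ ℂ`. For a finite Galois extension `L` of `ℚ` let `irr L` be
the set of the irreducible characters of `Gal(L/ℚ)`. These are the characters that occur in `h^0(Spec
L)`. The characters which occur in `h^0(Y)` are characters of `Gal(L/ℚ)` if `L` contains the fields of
constants of the connected components of `Y` (`ArtinMotives`). The type `C` consists of all abelian
extensions `L/K` of number fields, and `Q1 k c` is the assertion of the question for `k` and `c`. For
`k > 1` and `χ` in `I` let `Bei k χ` be Beilinson's conjecture for the Artin `L`-function of `χ` over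
`ℚ` at `1 - k`: for a finite Galois extension `L` of `ℚ` with group `G` such that `χ` is a character
of `G`, and isomorphisms `φ : B_L^+ ≃ ℚ ⊗ K_{2k-1}(L)` of `ℚ[G]`-modules, let `A(χ, φ)` be the
quotient of the determinant of `r_Bo ∘ φ` on the `χ`-part and of the leading coefficient of the
`L`-function of the character contragredient to `χ` at `1 - k`; then `A(χ, φ)^σ = A(χ^σ, φ)` for all
`σ`.

For `L/K` abelian question Q1 is this assertion for the characters of `Gal(L/K)`, and it is preserved
by induction, inflation and sums of characters. So it follows from `Bei k χ` for all irreducible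
characters `χ` of the Galois group of the Galois closure of `L` over `ℚ` (hypothesis `induction`), and
by Brauer's theorem on induced characters question Q1 for `k` and all abelian extensions implies `Bei
k χ` for all `χ` in `I` (hypothesis `irreducible`).

**Theorem.** (1) For all `m ≥ 1` and `N` the motive `V_{m,N}` is an Artin motive: the characters that
occur in it are characters of `Gal(L/ℚ)` for one finite Galois extension `L` of `ℚ`. For every finite
Galois extension `L` of `ℚ` and all large `m` there is an `N` such that all irreducible characters of
`Gal(L/ℚ)` occur in `V_{m,N}`.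

(2) Let `k > 1`. Question Q1 for `k` has a positive answer for all abelian extensions of number fields
if and only if, for infinitely many `m`, Beilinson's conjecture for `k` is true for the irreducible
characters of `Gal(ℚ̄/ℚ)` which occur in `V_{m,N}`, for all `N`.

(3) For every abelian extension `L/K` and all large `m` there is an `N` such that for all `k > 1`
Beilinson's conjecture for the irreducible characters in the single motive `V_{m,N}` implies question
Q1 for `k` and `L/K`.

(4) Question Q1 has a positive answer (for all `k > 1`) if and only if, for infinitely many `m`,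
Beilinson's conjecture is true for all `k > 1` and the irreducible characters which occur in
`V_{m,N}`, for all `N`.

(5) `G_m` has integral coefficients and degree at most three, and `C_m` is smooth over all rings.

The hypotheses on the motives are standard (`IsMot`): exact sequences, affine bundles, disjoint unions,
the cohomology of affine spaces, the weights of `H^j_c(X)` are between `0` and `2 dim X`, monomorphisms
split, `Gr^W_w H^j_c(X)` is a direct factor of `h^w(Y)` for some smooth projective `Y` (it is a
subquotient, by the weight spectral sequence), and every smooth projective scheme has an affine bundle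
whose total space is affine (Jouanolou).

Idea of the proof. The projection of `C_m` to the affine space with the coordinates `x, z, c, y` is an
affine bundle over the complement of the zero set `W_m` of the equations. The scheme `W_m` is the
disjoint union, over all sets `s` of relations (`c_r = 1` for `r ∈ s` and `c_r = 0` for the others), of
the products `X_s × 𝔸 ^ ((m + 1) N(s))`, where `X_s` is the affine scheme defined by the relations in
`s` and `N(s) = ∑_{r ∈ s} 2 ^ ν(r)`. The numbers `N(s)` are different, and the dimension of `X_s` is at
most `m`. So the invariant of `W_m` with the index `q + (m + 1) N(s)`, `0 ≤ q ≤ m`, is the invariant of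
`X_s` with the index `q`; the other components do not contribute. Every affine scheme of finite type
over a prime field is an `X_s`, for all large `m`.

The universal system of relations is the one of helper854 (`Pool.Agent.H854.SQ`).
-/

set_option autoImplicit false

open CategoryTheory CategoryTheory.Limits AlgebraicGeometry Pool.Agent.Y116.UV Pool.Agent.Z125.UN
  Pool.Agent.Q193.LT Pool.Agent.H854.SQ Pool.Agent.H367.OS

universe w v u



namespace Pool.Agent.Results.MP_a93ca1_nt.PiecesOfOneSequence

/-- Question Q1 for the abelian extensions `c` of number fields (`Q1 k c`), and Beilinson's conjecture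
for the irreducible characters `χ` of the absolute Galois group of `ℚ` (`Bei k χ`). -/
structure Describes {I C : Type w} (irr : ∀ (L : Type) [Field L] [NumberField L], Set I)
    (Q1 : ℕ → C → Prop) (Bei : ℕ → I → Prop) : Prop where
  irreducible : ∀ k, 1 < k → (∀ c : C, Q1 k c) → ∀ χ : I, Bei k χ
  induction : ∀ c : C, ∃ (L : Type) (_ : Field L) (_ : NumberField L), IsGalois ℚ L ∧
    ∀ k, 1 < k → (∀ χ ∈ irr L, Bei k χ) → Q1 k c

/-- **The equivariant Beilinson conjecture for abelian extensions and one double sequence of Artin
motives.** See the explanations above. -/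
theorem result {M : Type u} [Category.{v} M] [Abelian M] {D : Pieces ℚ M} (h : IsMot D)
    {I C : Type w} {occ : I → M → Prop} {irr : ∀ (L : Type) [Field L] [NumberField L], Set I}
    (ha : ArtinMotives D occ irr) {Q1 : ℕ → C → Prop} {Bei : ℕ → I → Prop}
    (hS : Describes irr Q1 Bei) :
    ((∀ m, 1 ≤ m → ∀ N : ℕ, ∃ (L : Type) (_ : Field L) (_ : NumberField L),
        IsGalois ℚ L ∧ {χ | occ χ (single0 D m N)} ⊆ irr L) ∧
      ∀ (L : Type) [Field L] [NumberField L] [IsGalois ℚ L], ∀ᶠ m in Filter.atTop, ∃ N : ℕ,
        irr L ⊆ {χ | occ χ (single0 D m N)}) ∧
    (∀ k, 1 < k → ((∀ c : C, Q1 k c) ↔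
      ∃ᶠ m in Filter.atTop, ∀ (N : ℕ) (χ : I), occ χ (single0 D m N) → Bei k χ)) ∧
    (∀ c : C, ∀ᶠ m in Filter.atTop, ∃ N : ℕ, ∀ k, 1 < k →
      (∀ χ : I, occ χ (single0 D m N) → Bei k χ) → Q1 k c) ∧
    ((∀ k, 1 < k → ∀ c : C, Q1 k c) ↔
      ∃ᶠ m in Filter.atTop, ∀ N k : ℕ, 1 < k → ∀ χ : I, occ χ (single0 D m N) → Bei k χ) ∧
    ∀ m : ℕ, (univG ℤ m).totalDegree ≤ 3 ∧
      ∀ (R : Type) [CommRing R], MvPolynomial.map (Int.castRingHom R) (univG ℤ m) = univG R m ∧
        Smooth (cubG R m).hom := by
  obtain ⟨h1, h2, h3⟩ := artin_decides h ha (P := fun S => ∀ χ ∈ S, Bei 2 χ)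
    fun S T hST hT χ hχ => hT χ (hST hχ)
  have h4 : ∀ c : C, ∀ᶠ m in Filter.atTop, ∃ N : ℕ, ∀ k, 1 < k →
      (∀ χ : I, occ χ (single0 D m N) → Bei k χ) → Q1 k c := by
    intro c
    obtain ⟨L, _, _, _, hL⟩ := hS.induction c
    filter_upwards [h2 L] with m hm
    obtain ⟨N, hN⟩ := hm
    exact ⟨N, fun k hk g => hL k hk fun χ hχ => g χ (hN hχ)⟩
  refine ⟨⟨h3, h2⟩, fun k hk => ⟨fun g => ?_, fun g c => ?_⟩, h4, ⟨fun g => ?_, fun g k hk c => ?_⟩,
    cubG_facts⟩
  · exact Filter.Frequently.of_forall fun m N χ _ => hS.irreducible k hk g χ
  · obtain ⟨m, hm1, N, hN⟩ := (g.and_eventually (h4 c)).exists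
    exact hN k hk (hm1 N)
  · exact Filter.Frequently.of_forall fun m N k hk χ _ => hS.irreducible k hk (g k hk) χ
  · obtain ⟨m, hm1, N, hN⟩ := (g.and_eventually (h4 c)).exists
    exact hN k hk (hm1 N k hk)

end Pool.Agent.Results.MP_a93ca1_nt.PiecesOfOneSequence
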